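import Pool.Agent.H62.UN.Targets

/-!
# MP_8b378c_ag, row SMO: smoothness of the charts
-/

set_option autoImplicit false

namespace Pool.Agent.H11.UNT

open Polynomial Pool.Agent.H17.UN Pool.Agent.H62.UN

theorem smo_chart (h1 : T_NFI) (h2 : T_SMC) (k E : Type) [Field k] [CharZero k] [Field E]
    [Algebra k E] (P Q : k[X]) (x y z : E) (h : Chart P Q x y z) :
    Algebra.Smooth k (cr k x y z) := by
  obtain ⟨e, -⟩ := h1 k E P Q x y z h
  have h3 : Algebra.Smooth k (CR P Q) := h2 k P Q h.sep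
  exact Algebra.Smooth.of_equiv e

theorem pf_SMO : F_SMO := by
  intro h1 h2 h3 k F _ _ _ _ P Q s y z h i
  obtain ⟨c0, c1, c2, c3⟩ := h3 k F P Q s y z h
  fin_cases i
  · exact smo_chart h1 h2 k F _ _ _ _ _ c0
  · exact smo_chart h1 h2 k F _ _ _ _ _ c1
  · exact smo_chart h1 h2 k F _ _ _ _ _ c2
  · exact smo_chart h1 h2 k F _ _ _ _ _ c3

end Pool.Agent.H11.UNT
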